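import Pool.Agent.Run7.h282.TS.Iface

/-!
# Piece BLOW of project TS (helper282), by helper594
-/

set_option autoImplicit false
set_option linter.all false

open Finset

namespace Run7.h594.TST

open Run7.h282.TS

section

variable {M n c : ℕ} (φ : Fin n → Fin M) (hfib : ∀ l, (univ.filter fun v => φ v = l).card ≤ c)

include hfib in
theorem pre_card (W : Finset (Fin M)) : (univ.filter fun v => φ v ∈ W).card ≤ W.card * c := by
  have h1 : (univ.filter fun v => φ v ∈ W).card =
      ∑ l ∈ W, ((univ.filter fun v => φ v ∈ W).filter fun v => φ v = l).card :=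
    Finset.card_eq_sum_card_fiberwise fun v hv => Finset.mem_coe.2 (Finset.mem_filter.1 hv).2
  rw [h1]
  refine (Finset.sum_le_sum (g := fun _ => c) fun l _ => ?_).trans (le_of_eq ?_)
  · refine le_trans (Finset.card_le_card ?_) (hfib l)
    intro v hv
    rw [Finset.mem_filter] at hv ⊢
    exact ⟨Finset.mem_univ _, hv.2⟩
  · rw [Finset.sum_const, smul_eq_mul]

include hfib in
theorem trans_card (A : Finset (Fin M)) (r : ℕ) (hA : A.card = r) :
    (univ.filter fun e : Finset (Fin n) => e.card = r ∧ e.image φ = A).card ≤ c ^ r := by
  classical
  have h1 : (univ.filter fun e : Finset (Fin n) => e.card = r ∧ e.image φ = A) ⊆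
      (A.pi fun l => univ.filter fun v => φ v = l).image
        (fun g => A.attach.image fun l => g l.1 l.2) := by
    intro e he
    obtain ⟨he1, he2⟩ := (Finset.mem_filter.1 he).2
    have hex : ∀ l, l ∈ A → ∃ v, v ∈ e ∧ φ v = l := by
      intro l hl
      rw [← he2, Finset.mem_image] at hl
      exact hl
    choose g hg1 hg2 using hex
    rw [Finset.mem_image]
    refine ⟨g, Finset.mem_pi.2 fun l hl => Finset.mem_filter.2 ⟨Finset.mem_univ _, hg2 l hl⟩, ?_⟩
    apply Finset.eq_of_subset_of_card_le
    · intro v hv
      obtain ⟨l, _, rfl⟩ := Finset.mem_image.1 hv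
      exact hg1 _ _
    · rw [Finset.card_image_of_injective, Finset.card_attach, he1, hA]
      intro a b hab
      apply Subtype.ext
      have e1 := hg2 a.1 a.2
      have e2 := hg2 b.1 b.2
      simp only at hab
      rw [← e1, ← e2, hab]
  refine (Finset.card_le_card h1).trans (Finset.card_image_le.trans ?_)
  rw [Finset.card_pi]
  refine (Finset.prod_le_prod' (g := fun _ => c) fun l _ => hfib l).trans (le_of_eq ?_)
  rw [Finset.prod_const, hA]

end

theorem t_BLOW : S_BLOW := by
  classical
  intro M k' r n c H hr hh hH hn
  set h := (r + 1) / 2 with hhd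
  have hφ : ∀ v : Fin n, v.1 / c < M := fun v => Nat.div_lt_of_lt_mul (by
    have := v.2
    rw [mul_comm] at hn
    omega)
  let φ : Fin n → Fin M := fun v => ⟨v.1 / c, hφ v⟩
  have hfib : ∀ l : Fin M, (univ.filter fun v : Fin n => φ v = l).card ≤ c := by
    intro l
    rcases Nat.eq_zero_or_pos c with hc | hc
    · have h0 : (univ.filter fun v : Fin n => φ v = l) = ∅ := by
        rw [Finset.filter_eq_empty_iff]
        intro v _
        exfalso
        have := v.2
        rw [hc, mul_zero] at hn
        omega
      rw [h0]
      simp
    · have h1 : ((univ.filter fun v : Fin n => φ v = l).image fun v => v.1 % c) ⊆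
          Finset.range c := by
        intro x hx
        obtain ⟨v, _, rfl⟩ := Finset.mem_image.1 hx
        exact Finset.mem_range.2 (Nat.mod_lt _ hc)
      have h2 : ((univ.filter fun v : Fin n => φ v = l).image fun v => v.1 % c).card =
          (univ.filter fun v : Fin n => φ v = l).card := by
        apply Finset.card_image_of_injOn
        intro a ha b hb hab
        have e1 : a.1 / c = l.1 := congrArg Fin.val (Finset.mem_filter.1 (Finset.mem_coe.1 ha)).2
        have e2 : b.1 / c = l.1 := congrArg Fin.val (Finset.mem_filter.1 (Finset.mem_coe.1 hb)).2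
        simp only at hab
        apply Fin.ext
        rw [← Nat.div_add_mod a.1 c, ← Nat.div_add_mod b.1 c, e1, e2, hab]
      rw [← h2]
      exact (Finset.card_le_card h1).trans (le_of_eq (Finset.card_range c))
  set E1 : Finset (Finset (Fin n)) := univ.filter fun e => e.card = r ∧ e.image φ ∈ H with hE1
  set E2 : Finset (Finset (Fin n)) := univ.filter fun e => e.card = r ∧ (e.image φ).card ≤ h with hE2
  have hc1 : E1.card ≤ H.card * c ^ r := by
    have h1 : E1 ⊆ H.biUnion fun A => univ.filter fun e : Finset (Fin n) =>
        e.card = r ∧ e.image φ = A := by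
      intro e he
      obtain ⟨he1, he2⟩ := (Finset.mem_filter.1 he).2
      exact Finset.mem_biUnion.2 ⟨_, he2, Finset.mem_filter.2 ⟨Finset.mem_univ _, he1, rfl⟩⟩
    refine (Finset.card_le_card h1).trans (Finset.card_biUnion_le.trans ?_)
    refine (Finset.sum_le_sum (g := fun _ => c ^ r) fun A hA => trans_card φ hfib A r
      (hH.1 A hA)).trans (le_of_eq ?_)
    rw [Finset.sum_const, smul_eq_mul]
  have hc2 : E2.card ≤ M.choose h * (h * c).choose r := by
    have h1 : E2 ⊆ ((univ : Finset (Fin M)).powersetCard h).biUnion fun W =>
        (univ.filter fun v : Fin n => φ v ∈ W).powersetCard r := by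
      intro e he
      obtain ⟨he1, he2⟩ := (Finset.mem_filter.1 he).2
      obtain ⟨W, hW1, _, hW2⟩ := Finset.exists_subsuperset_card_eq
        (Finset.subset_univ (e.image φ)) he2 (by rw [Finset.card_univ, Fintype.card_fin]; exact hh)
      refine Finset.mem_biUnion.2 ⟨W, Finset.mem_powersetCard.2 ⟨Finset.subset_univ _, hW2⟩,
        Finset.mem_powersetCard.2 ⟨?_, he1⟩⟩
      intro v hv
      exact Finset.mem_filter.2 ⟨Finset.mem_univ _, hW1 (Finset.mem_image_of_mem φ hv)⟩
    refine (Finset.card_le_card h1).trans (Finset.card_biUnion_le.trans ?_)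
    refine (Finset.sum_le_sum (g := fun _ => (h * c).choose r) fun W hW => ?_).trans (le_of_eq ?_)
    · rw [Finset.card_powersetCard]
      apply Nat.choose_le_choose
      rw [← (Finset.mem_powersetCard.1 hW).2]
      exact pre_card φ hfib W
    · rw [Finset.sum_const, Finset.card_powersetCard, Finset.card_univ, Fintype.card_fin,
        smul_eq_mul]
  have hsys : IsSys n (k' + r + 1) r (E1 ∪ E2) := by
    refine ⟨fun e he => ?_, fun S hS => ?_⟩
    · rcases Finset.mem_union.1 he with h1 | h1
      · exact (Finset.mem_filter.1 h1).2.1
      · exact (Finset.mem_filter.1 h1).2.1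
    · rcases Nat.lt_or_ge k' (S.image φ).card with hlt | hle
      · obtain ⟨L, hL, hLc⟩ := Finset.exists_subset_card_eq (show k' + 1 ≤ (S.image φ).card from hlt)
        obtain ⟨A, hA, hAL⟩ := hH.2 L hLc
        have hex : ∀ l, l ∈ A → ∃ v, v ∈ S ∧ φ v = l := by
          intro l hl
          have := hL (hAL hl)
          rw [Finset.mem_image] at this
          exact this
        choose g hg1 hg2 using hex
        have himg : (A.attach.image fun l => g l.1 l.2).image φ = A := by
          ext l
          constructor
          · intro hl
            obtain ⟨v, hv, rfl⟩ := Finset.mem_image.1 hl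
            obtain ⟨l', _, rfl⟩ := Finset.mem_image.1 hv
            rw [hg2]
            exact l'.2
          · intro hl
            exact Finset.mem_image.2 ⟨g l hl, Finset.mem_image.2 ⟨⟨l, hl⟩, Finset.mem_attach _ _, rfl⟩,
              hg2 l hl⟩
        refine ⟨A.attach.image fun l => g l.1 l.2, ?_, ?_⟩
        · refine Finset.mem_union_left _ (Finset.mem_filter.2 ⟨Finset.mem_univ _, ?_, ?_⟩)
          · rw [Finset.card_image_of_injective, Finset.card_attach, hH.1 A hA]
            intro a b hab
            apply Subtype.ext
            have e1 := hg2 a.1 a.2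
            have e2 := hg2 b.1 b.2
            simp only at hab
            rw [← e1, ← e2, hab]
          · rw [himg]
            exact hA
        · intro v hv
          obtain ⟨l, _, rfl⟩ := Finset.mem_image.1 hv
          exact hg1 _ _
      · -- few labels
        set Y : Finset (Fin M) := univ.filter fun l => 2 ≤ (S.filter fun v => φ v = l).card with hY
        have hS1 : (S.filter fun v => φ v ∉ Y).card ≤ k' := by
          refine le_trans ?_ hle
          have h1 : ((S.filter fun v => φ v ∉ Y).image φ).card = (S.filter fun v => φ v ∉ Y).card := by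
            apply Finset.card_image_of_injOn
            intro a ha b hb hab
            by_contra hne
            have ha' := Finset.mem_filter.1 (Finset.mem_coe.1 ha)
            have hb' := Finset.mem_filter.1 (Finset.mem_coe.1 hb)
            apply ha'.2
            rw [hY, Finset.mem_filter]
            refine ⟨Finset.mem_univ _, ?_⟩
            have h2 : ({a, b} : Finset (Fin n)) ⊆ S.filter fun v => φ v = φ a := by
              intro x hx
              rw [Finset.mem_insert, Finset.mem_singleton] at hx
              rcases hx with rfl | rfl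
              · exact Finset.mem_filter.2 ⟨ha'.1, rfl⟩
              · exact Finset.mem_filter.2 ⟨hb'.1, hab.symm⟩
            rw [← Finset.card_pair hne]
            exact Finset.card_le_card h2
          rw [← h1]
          exact Finset.card_le_card (Finset.image_subset_image (Finset.filter_subset _ _))
        have hS2 : r + 1 ≤ (S.filter fun v => φ v ∈ Y).card := by
          have h1 := Finset.card_filter_add_card_filter_not (s := S) (fun v => φ v ∈ Y)
          rw [hS] at h1
          omega
        -- a set of at most `h` labels with many vertices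
        obtain ⟨Y', hY'c, hY'v⟩ : ∃ Y' : Finset (Fin M), Y'.card ≤ h ∧
            r ≤ (S.filter fun v => φ v ∈ Y').card := by
          rcases Nat.lt_or_ge Y.card h with hlt | hge
          · exact ⟨Y, hlt.le, by omega⟩
          · obtain ⟨Y', hY', hY'c⟩ := Finset.exists_subset_card_eq hge
            refine ⟨Y', hY'c.le, ?_⟩
            have h1 : (S.filter fun v => φ v ∈ Y').card =
                ∑ l ∈ Y', ((S.filter fun v => φ v ∈ Y').filter fun v => φ v = l).card :=
              Finset.card_eq_sum_card_fiberwise fun v hv => Finset.mem_coe.2 (Finset.mem_filter.1 hv).2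
            have h2 : ∑ l ∈ Y', 2 ≤
                ∑ l ∈ Y', ((S.filter fun v => φ v ∈ Y').filter fun v => φ v = l).card := by
              refine Finset.sum_le_sum fun l hl => ?_
              refine le_trans (Finset.mem_filter.1 (hY' hl)).2 (Finset.card_le_card ?_)
              intro v hv
              obtain ⟨hv1, hv2⟩ := Finset.mem_filter.1 hv
              exact Finset.mem_filter.2 ⟨Finset.mem_filter.2 ⟨hv1, by rw [hv2]; exact hl⟩, hv2⟩
            rw [h1]
            refine le_trans ?_ h2
            rw [Finset.sum_const, hY'c, smul_eq_mul]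
            omega
        obtain ⟨e, he, hec⟩ := Finset.exists_subset_card_eq hY'v
        refine ⟨e, Finset.mem_union_right _ (Finset.mem_filter.2 ⟨Finset.mem_univ _, hec, ?_⟩),
          he.trans (Finset.filter_subset _ _)⟩
        refine le_trans (Finset.card_le_card ?_) hY'c
        intro l hl
        obtain ⟨v, hv, rfl⟩ := Finset.mem_image.1 hl
        exact (Finset.mem_filter.1 (he hv)).2
  have hT : T n (k' + r + 1) r ≤ (E1 ∪ E2).card := Nat.sInf_le ⟨_, hsys, rfl⟩
  exact hT.trans ((Finset.card_union_le _ _).trans (Nat.add_le_add hc1 hc2))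

end Run7.h594.TST
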