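import Pool.Agent.Run7.h282.TS.Iface

/-!
# Piece NUM of project TS (helper282), by helper594
-/

set_option autoImplicit false
set_option linter.all false

open Finset

namespace Run7.h594.TST

open Run7.h282.TS

theorem ratio_le (r : ℕ) (hr : 2 ≤ r) : ((r ^ 8).choose r : ℝ) / ((r ^ 2 + 1).choose r : ℝ) ≤
    ((r : ℝ) ^ 8) ^ r / ((r : ℝ) ^ 2 - r + 2) ^ r := by
  have hR : (2 : ℝ) ≤ r := by exact_mod_cast hr
  have hq : (0 : ℝ) < (r : ℝ) ^ 2 - r + 2 := by nlinarith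
  have hf : (0 : ℝ) < (r.factorial : ℝ) := by exact_mod_cast Nat.factorial_pos r
  have h1 : ((r ^ 8).choose r : ℝ) ≤ ((r : ℝ) ^ 8) ^ r / r.factorial := by
    have := Nat.choose_le_pow_div (α := ℝ) r (r ^ 8)
    push_cast at this
    exact this
  have h2 : ((r : ℝ) ^ 2 - r + 2) ^ r / r.factorial ≤ ((r ^ 2 + 1).choose r : ℝ) := by
    rw [div_le_iff₀ hf]
    have h3 := Nat.pow_sub_le_descFactorial (r ^ 2 + 1) r
    rw [Nat.descFactorial_eq_factorial_mul_choose] at h3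
    have h4 : ((r ^ 2 + 1 + 1 - r : ℕ) : ℝ) = (r : ℝ) ^ 2 - r + 2 := by
      rw [Nat.cast_sub (by nlinarith)]
      push_cast
      ring
    have h5 : (((r ^ 2 + 1 + 1 - r : ℕ) : ℝ)) ^ r ≤ (r.factorial : ℝ) * ((r ^ 2 + 1).choose r : ℝ) := by
      exact_mod_cast h3
    rw [h4] at h5
    linarith
  have h6 : (0 : ℝ) < ((r : ℝ) ^ 2 - r + 2) ^ r / r.factorial := by positivity
  calc ((r ^ 8).choose r : ℝ) / ((r ^ 2 + 1).choose r : ℝ) ≤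
      (((r : ℝ) ^ 8) ^ r / r.factorial) / (((r : ℝ) ^ 2 - r + 2) ^ r / r.factorial) :=
        div_le_div₀ (by positivity) h1 h6 h2
    _ = _ := by
        field_simp

theorem log_le (r : ℕ) (hr : 2 ≤ r) : Real.log ((r ^ 8).choose (r ^ 2 + 1) : ℝ) ≤
    8 * ((r : ℝ) ^ 2 + 1) * Real.log r := by
  have hR : (2 : ℝ) ≤ r := by exact_mod_cast hr
  have h1 : r ^ 2 + 1 ≤ r ^ 8 := by
    have h2 : r ^ 3 ≤ r ^ 8 := Nat.pow_le_pow_right (by omega) (by norm_num)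
    have h3 : r ^ 3 = r * r ^ 2 := by ring
    nlinarith [Nat.pow_le_pow_left hr 2]
  have h2 : (0 : ℝ) < ((r ^ 8).choose (r ^ 2 + 1) : ℝ) := by exact_mod_cast Nat.choose_pos h1
  have h3 : ((r ^ 8).choose (r ^ 2 + 1) : ℝ) ≤ ((r : ℝ) ^ 8) ^ (r ^ 2 + 1) := by
    exact_mod_cast Nat.choose_le_pow (r ^ 8) (r ^ 2 + 1)
  refine (Real.log_le_log h2 h3).trans (le_of_eq ?_)
  rw [Real.log_pow, Real.log_pow]
  push_cast
  ring

theorem first (r : ℕ) (hr : 2 ≤ r) : ((r : ℝ) ^ 2 + r) ^ (r - 1) *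
    (((r ^ 8).choose r : ℝ) / ((r ^ 2 + 1).choose r : ℝ) *
      Real.log ((r ^ 8).choose (r ^ 2 + 1) : ℝ)) / ((r : ℝ) ^ 8) ^ r ≤ 128 * Real.log r := by
  have hR : (2 : ℝ) ≤ r := by exact_mod_cast hr
  have hR0 : (0 : ℝ) < r := by linarith
  have hq : (0 : ℝ) < (r : ℝ) ^ 2 - r + 2 := by nlinarith
  have hlog : 0 ≤ Real.log r := Real.log_nonneg (by linarith)
  set q := (r : ℝ) ^ 2 - r + 2 with hqd
  have h1 := ratio_le r hr
  have h2 := log_le r hr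
  have h3 : ((r ^ 8).choose r : ℝ) / ((r ^ 2 + 1).choose r : ℝ) *
      Real.log ((r ^ 8).choose (r ^ 2 + 1) : ℝ) ≤
      ((r : ℝ) ^ 8) ^ r / q ^ r * (8 * ((r : ℝ) ^ 2 + 1) * Real.log r) := by
    have h0 : 0 ≤ ((r ^ 8).choose r : ℝ) / ((r ^ 2 + 1).choose r : ℝ) := by positivity
    refine (mul_le_mul_of_nonneg_left h2 h0).trans (mul_le_mul_of_nonneg_right h1 (by positivity))
  have h4 : ((r : ℝ) ^ 2 + r) ^ (r - 1) *
    (((r ^ 8).choose r : ℝ) / ((r ^ 2 + 1).choose r : ℝ) *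
      Real.log ((r ^ 8).choose (r ^ 2 + 1) : ℝ)) / ((r : ℝ) ^ 8) ^ r ≤
      ((r : ℝ) ^ 2 + r) ^ (r - 1) *
        (((r : ℝ) ^ 8) ^ r / q ^ r * (8 * ((r : ℝ) ^ 2 + 1) * Real.log r)) / ((r : ℝ) ^ 8) ^ r := by
    gcongr
  refine h4.trans ?_
  obtain ⟨s, rfl⟩ : ∃ s, r = s + 1 := ⟨r - 1, by omega⟩
  rw [show s + 1 - 1 = s by omega]
  set R : ℝ := ((s + 1 : ℕ) : ℝ) with hRd
  have h5 : (R ^ 2 + R) ^ s * ((R ^ 8) ^ (s + 1) / q ^ (s + 1) * (8 * (R ^ 2 + 1) * Real.log R)) /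
      (R ^ 8) ^ (s + 1) = ((R ^ 2 + R) / q) ^ s * (8 * ((R ^ 2 + 1) / q)) * Real.log R := by
    rw [div_pow, pow_succ q s]
    field_simp
  rw [h5]
  have h6 : (R ^ 2 + R) / q ≤ 1 + 2 / R := by
    rw [div_le_iff₀ hq, hqd]
    have : (1 + 2 / R) * (R ^ 2 - R + 2) = R ^ 2 + R + 4 / R := by
      field_simp
      ring
    rw [this]
    have : 0 ≤ 4 / R := by positivity
    linarith
  have h7 : ((R ^ 2 + R) / q) ^ s ≤ 8 := by
    have h8 : (1 + 2 / R) ^ s ≤ Real.exp 2 := by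
      have h9 : 1 + 2 / R ≤ Real.exp (2 / R) := by
        have := Real.add_one_le_exp (2 / R)
        linarith
      calc (1 + 2 / R) ^ s ≤ Real.exp (2 / R) ^ s := pow_le_pow_left₀ (by positivity) h9 s
        _ = Real.exp (s * (2 / R)) := by rw [← Real.exp_nat_mul]
        _ ≤ Real.exp 2 := by
            apply Real.exp_le_exp.2
            have hs : (s : ℝ) ≤ R := by
              rw [hRd]
              push_cast
              linarith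
            rw [mul_div_assoc', div_le_iff₀ hR0]
            linarith
    have h10 : Real.exp 2 ≤ 8 := by
      have h11 : Real.exp 2 = Real.exp 1 * Real.exp 1 := by rw [← Real.exp_add]; norm_num
      have h12 := Real.exp_one_lt_d9
      have h13 := Real.exp_pos 1
      rw [h11]
      nlinarith
    exact (pow_le_pow_left₀ (by positivity) h6 s).trans (h8.trans h10)
  have h8 : (R ^ 2 + 1) / q ≤ 2 := by
    rw [div_le_iff₀ hq, hqd]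
    nlinarith [sq_nonneg (R - 1)]
  have h9 : ((R ^ 2 + R) / q) ^ s * (8 * ((R ^ 2 + 1) / q)) ≤ 8 * (8 * 2) := by
    refine mul_le_mul h7 (by linarith) (by positivity) (by norm_num)
  calc ((R ^ 2 + R) / q) ^ s * (8 * ((R ^ 2 + 1) / q)) * Real.log R ≤ (8 * (8 * 2)) * Real.log R :=
        mul_le_mul_of_nonneg_right h9 hlog
    _ = _ := by norm_num

theorem base_le (r : ℕ) (hr : 2 ≤ r) : ((r : ℝ) ^ 2 + r) ^ (r - 1) ≤ (2 * (r : ℝ) ^ 2) ^ (r - 1) := by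
  have hR : (2 : ℝ) ≤ r := by exact_mod_cast hr
  exact pow_le_pow_left₀ (by positivity) (by nlinarith) _

theorem second (r : ℕ) (hr : 2 ≤ r) :
    ((r : ℝ) ^ 2 + r) ^ (r - 1) / ((r : ℝ) ^ 8) ^ r ≤ 1 := by
  have hR : (2 : ℝ) ≤ r := by exact_mod_cast hr
  have hR1 : (1 : ℝ) ≤ r := by linarith
  rw [div_le_one (by positivity)]
  refine (base_le r hr).trans ?_
  have h1 : 2 * (r : ℝ) ^ 2 ≤ (r : ℝ) ^ 8 := by
    have h2 : (r : ℝ) ^ 3 ≤ (r : ℝ) ^ 8 := pow_le_pow_right₀ hR1 (by norm_num)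
    have h3 : (r : ℝ) ^ 3 = r * (r : ℝ) ^ 2 := by ring
    nlinarith [sq_nonneg (r : ℝ)]
  calc (2 * (r : ℝ) ^ 2) ^ (r - 1) ≤ ((r : ℝ) ^ 8) ^ (r - 1) := pow_le_pow_left₀ (by positivity) h1 _
    _ ≤ ((r : ℝ) ^ 8) ^ r := pow_le_pow_right₀ (one_le_pow₀ hR1) (by omega)

theorem third (r : ℕ) (hr : 2 ≤ r) : ((r : ℝ) ^ 2 + r) ^ (r - 1) *
    (((r ^ 8).choose ((r + 1) / 2) : ℝ) * (((r + 1) / 2 : ℕ) : ℝ) ^ r / (r.factorial : ℝ)) /
      ((r : ℝ) ^ 8) ^ r ≤ 2 := by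
  have hR : (2 : ℝ) ≤ r := by exact_mod_cast hr
  have hR1 : (1 : ℝ) ≤ r := by linarith
  have hR0 : (0 : ℝ) < r := by linarith
  set h := (r + 1) / 2 with hh
  have hhr : h ≤ r := by omega
  have hf : (1 : ℝ) ≤ (r.factorial : ℝ) := by exact_mod_cast Nat.factorial_pos r
  have h1 : ((r ^ 8).choose h : ℝ) ≤ ((r : ℝ) ^ 8) ^ h := by
    exact_mod_cast Nat.choose_le_pow (r ^ 8) h
  have h2 : ((h : ℕ) : ℝ) ^ r ≤ (r : ℝ) ^ r := pow_le_pow_left₀ (by positivity) (by exact_mod_cast hhr) r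
  have h3 : ((r ^ 8).choose h : ℝ) * ((h : ℕ) : ℝ) ^ r / (r.factorial : ℝ) ≤
      ((r : ℝ) ^ 8) ^ h * (r : ℝ) ^ r := by
    refine (div_le_self (by positivity) hf).trans ?_
    exact mul_le_mul h1 h2 (by positivity) (by positivity)
  have h4 : ((r : ℝ) ^ 2 + r) ^ (r - 1) *
    (((r ^ 8).choose h : ℝ) * ((h : ℕ) : ℝ) ^ r / (r.factorial : ℝ)) ≤
      (2 * (r : ℝ) ^ 2) ^ (r - 1) * (((r : ℝ) ^ 8) ^ h * (r : ℝ) ^ r) :=
    mul_le_mul (base_le r hr) h3 (by positivity) (by positivity)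
  rw [div_le_iff₀ (by positivity)]
  refine h4.trans ?_
  -- exponents
  obtain ⟨s, rfl⟩ : ∃ s, r = s + 2 := ⟨r - 2, by omega⟩
  rw [show s + 2 - 1 = s + 1 by omega]
  set R : ℝ := ((s + 2 : ℕ) : ℝ) with hRd
  have h5 : (2 : ℝ) ^ s ≤ R ^ s := pow_le_pow_left₀ (by norm_num) hR s
  have h6 : R ^ (2 * (s + 1)) * R ^ (8 * h) * R ^ (s + 2) * R ^ s ≤ (R ^ 8) ^ (s + 2) := by
    rw [← pow_add, ← pow_add, ← pow_add, ← pow_mul]
    apply pow_le_pow_right₀ hR1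
    omega
  calc (2 * R ^ 2) ^ (s + 1) * ((R ^ 8) ^ h * R ^ (s + 2)) =
      2 * (2 : ℝ) ^ s * (R ^ (2 * (s + 1)) * R ^ (8 * h) * R ^ (s + 2)) := by
        rw [mul_pow, pow_succ (2 : ℝ) s, ← pow_mul, ← pow_mul]
        ring
    _ ≤ 2 * R ^ s * (R ^ (2 * (s + 1)) * R ^ (8 * h) * R ^ (s + 2)) := by gcongr
    _ = 2 * (R ^ (2 * (s + 1)) * R ^ (8 * h) * R ^ (s + 2) * R ^ s) := by ring
    _ ≤ 2 * (R ^ 8) ^ (s + 2) := by gcongr

theorem t_NUM : S_NUM := by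
  refine ⟨134, fun r hr a ha => ?_⟩
  have hR : (2 : ℝ) ≤ r := by exact_mod_cast hr
  have hlog : 1 / 2 ≤ Real.log r := by
    have h1 := Real.log_two_gt_d9
    have h2 := Real.log_le_log (by norm_num : (0 : ℝ) < 2) hR
    linarith
  have h1 := first r hr
  have h2 := second r hr
  have h3 := third r hr
  have h4 : ((r : ℝ) ^ 2 + r) ^ (r - 1) * (a + ((r ^ 8).choose ((r + 1) / 2) : ℝ) *
    (((r + 1) / 2 : ℕ) : ℝ) ^ r / (r.factorial : ℝ)) / ((r : ℝ) ^ 8) ^ r ≤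
    ((r : ℝ) ^ 2 + r) ^ (r - 1) * ((((r ^ 8).choose r : ℝ) / ((r ^ 2 + 1).choose r : ℝ) *
      Real.log ((r ^ 8).choose (r ^ 2 + 1) : ℝ) + 1) + ((r ^ 8).choose ((r + 1) / 2) : ℝ) *
    (((r + 1) / 2 : ℕ) : ℝ) ^ r / (r.factorial : ℝ)) / ((r : ℝ) ^ 8) ^ r := by
    gcongr
  refine h4.trans ?_
  have h5 : ((r : ℝ) ^ 2 + r) ^ (r - 1) * ((((r ^ 8).choose r : ℝ) / ((r ^ 2 + 1).choose r : ℝ) *
      Real.log ((r ^ 8).choose (r ^ 2 + 1) : ℝ) + 1) + ((r ^ 8).choose ((r + 1) / 2) : ℝ) *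
    (((r + 1) / 2 : ℕ) : ℝ) ^ r / (r.factorial : ℝ)) / ((r : ℝ) ^ 8) ^ r =
    ((r : ℝ) ^ 2 + r) ^ (r - 1) *
    (((r ^ 8).choose r : ℝ) / ((r ^ 2 + 1).choose r : ℝ) *
      Real.log ((r ^ 8).choose (r ^ 2 + 1) : ℝ)) / ((r : ℝ) ^ 8) ^ r +
    ((r : ℝ) ^ 2 + r) ^ (r - 1) / ((r : ℝ) ^ 8) ^ r +
    ((r : ℝ) ^ 2 + r) ^ (r - 1) *
    (((r ^ 8).choose ((r + 1) / 2) : ℝ) * (((r + 1) / 2 : ℕ) : ℝ) ^ r / (r.factorial : ℝ)) /
      ((r : ℝ) ^ 8) ^ r := by ring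
  rw [h5]
  linarith

end Run7.h594.TST
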